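import Pool.Agent.Helper454.TPMain

/-!
# Totally paracompact spaces covered by closures of countable unions of small sets
-/

open Set Filter Topology TopologicalSpace
open scoped Cardinal

universe u

namespace Pool.Agent.Results.MP_78ccb7_gt.CountableTightness

open Pool.Helper454.TP

/-- Main result. -/
theorem result :
    ∀ (X : Type u) [TopologicalSpace X], TotallyParacompact X →
    ∀ D : Set X, Dense D → IsLindelof D →
    ∀ 𝓚 : Set (Set X),
      (∀ K ∈ 𝓚, IsCompact K ∨ ∃ μ : @MeasureTheory.Measure X (borel X), μ univ < ⊤ ∧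
        ∀ O : Set X, IsOpen O → (O ∩ K).Nonempty → 0 < μ O) →
      (∀ x : X, ∃ 𝓐 : Set (Set X), 𝓐 ⊆ 𝓚 ∧ 𝓐.Countable ∧ x ∈ closure (⋃₀ 𝓐)) →
      ((#𝓚 < ℵ_ Ordinal.omega0 ∧ Cardinal.lift.{0} #𝓚 < Cardinal.lift.{u} bnum) ∨
        Cardinal.lift.{0} (cofCtbl 𝓚) < Cardinal.lift.{u} bnum) →
      MengerSpace X := by
  intro X _ hX D hD hL 𝓚 h𝓚 hcov hcard
  have hcof : Cardinal.lift.{0} (cofCtbl 𝓚) < Cardinal.lift.{u} bnum := by
    rcases hcard with ⟨h1, h2⟩ | h
    · obtain ⟨n, hn⟩ := exists_le_aleph h1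
      refine lt_of_le_of_lt (Cardinal.lift_le.2 (cofCtbl_le_max n _ hn)) ?_
      rw [Cardinal.lift_max]
      refine max_lt ?_ h2
      have hb0 : ℵ₀ < Cardinal.lift.{u} bnum := by
        rw [← Cardinal.lift_aleph0.{u, 0}, Cardinal.lift_lt]
        exact aleph0_lt_bnum
      simpa using hb0
    · exact h
  refine menger_of_cof hX D hD hL 𝓚 ?_ hcov hcof
  intro K hK
  rcases h𝓚 K hK with h | ⟨μ, h1, h2⟩
  · exact tagged_of_isCompact h
  · exact tagged_of_measure μ h1 h2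

end Pool.Agent.Results.MP_78ccb7_gt.CountableTightness
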