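import Pool.Agent.Helper454.TPGO
import Pool.Agent.Helper454.TPMain

/-!
# Totally paracompact generalized ordered spaces, their images and perfect preimages
-/

open Set Filter Topology TopologicalSpace
open scoped Cardinal

universe u' u v w

namespace Pool.Agent.Results.MP_78ccb7_gt.OrderedSpaces

open Pool.Helper454.TP

/-- Main result. -/
theorem result :
    -- generalized ordered spaces
    (∀ (X : Type u) [LinearOrder X] [TopologicalSpace X], IsGOSpace X → TotallyParacompact X →
      ∀ D : Set X, Dense D → (HurewiczSpace D ∨ IsLindelof D) → MengerSpace X) ∧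
    -- perfect preimages of unions of fewer than `𝔟` continuous images of Lindelöf GO-spaces
    (∀ (Z : Type w) [TopologicalSpace Z], TotallyParacompact Z →
      ∀ D : Set Z, Dense D → (HurewiczSpace D ∨ IsLindelof D) →
      ∀ (Y : Type v) [TopologicalSpace Y] (p : Z → Y), IsProperMap p → Function.Surjective p →
      ∀ (ι : Type u') (X : ι → Type u) [∀ i, LinearOrder (X i)] [∀ i, TopologicalSpace (X i)],
        (∀ i, IsGOSpace (X i)) → (∀ i, LindelofSpace (X i)) →
      ∀ f : ∀ i, X i → Y, (∀ i, Continuous (f i)) → ⋃ i, range (f i) = univ →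
      Cardinal.lift.{0} #ι < Cardinal.lift.{u'} bnum → MengerSpace Z) := by
  have hDL : ∀ {X : Type w} [TopologicalSpace X] (D : Set X), (HurewiczSpace D ∨ IsLindelof D) →
      IsLindelof D := by
    intro X _ D h
    rcases h with h | h
    · exact h.isLindelof
    · exact h
  refine ⟨?_, ?_⟩
  · intro X _ _ hgo hX D hD hDL'
    have hLD : IsLindelof D := by
      rcases hDL' with h | h
      · exact h.isLindelof
      · exact h
    have hL := isLindelof_univ_of_dense hX D hD hLD
    refine menger_of_GO (ι := PUnit.{1}) (X := fun _ => X) (fun _ => hgo) (fun _ => hL)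
      (fun _ => id) (fun _ => continuous_id) (fun y => ⟨PUnit.unit, y, rfl⟩) id continuous_id
      IsClosedMap.id Function.surjective_id (fun y => ?_) hX D hD hLD ?_
    · simp
    · intro F
      exact ⟨F PUnit.unit, fun i => Eventually.of_forall (fun n => le_rfl)⟩
  · intro Z _ hZ D hD hDL' Y _ p hp hps ι X _ _ hgo hL f hf hcov hι
    have h := isProperMap_iff_isClosedMap_and_compact_fibers.1 hp
    refine menger_of_GO hgo (fun i => ?_) f hf (fun y => ?_) p h.1 h.2.1 hps h.2.2 hZ D hD
      (hDL D hDL') (bounded_of_lt hι)
    · have := hL i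
      exact isLindelof_univ
    · have : y ∈ ⋃ i, range (f i) := by rw [hcov]; trivial
      exact mem_iUnion.1 this

end Pool.Agent.Results.MP_78ccb7_gt.OrderedSpaces
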